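import Pool.Agent.Lib.MP_50bb2e_nt.MT.Iface

/-! FCN: number of finite sets of primes -/

open NumberField IsDedekindDomain Filter Topology

namespace Pool.Agent.Lib.MP_50bb2e_nt.MT.H22

open Pool.Agent.Lib.MP_50bb2e_nt.MT

variable {F : Type} [Field F] [NumberField F]

/-- The squarefree ideal of a finite set of primes. -/
noncomputable def idl (s : Finset (Pr F)) : Ideal (𝓞 F) := ∏ v ∈ s, v.asIdeal

lemma prime_as (v : Pr F) : Prime v.asIdeal := Ideal.prime_of_isPrime v.ne_bot v.isPrime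

lemma eq_of_dvd {v w : Pr F} (h : v.asIdeal ∣ w.asIdeal) : v = w := by
  have h1 : w.asIdeal ≤ v.asIdeal := Ideal.dvd_iff_le.1 h
  have h2 : w.asIdeal = v.asIdeal := w.isMaximal.eq_of_le v.isPrime.ne_top h1
  exact (HeightOneSpectrum.ext h2).symm

lemma dvd_idl {v : Pr F} {s : Finset (Pr F)} : v.asIdeal ∣ idl s ↔ v ∈ s := by
  constructor
  · intro h
    obtain ⟨w, hw, h1⟩ := (prime_as v).exists_mem_finset_dvd h
    exact eq_of_dvd h1 ▸ hw
  · intro h
    exact Finset.dvd_prod_of_mem (fun v : Pr F => v.asIdeal) h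

lemma idl_injective : Function.Injective (idl : Finset (Pr F) → Ideal (𝓞 F)) := by
  intro s t h
  ext v
  rw [← dvd_idl, ← dvd_idl, h]

lemma idl_ne (s : Finset (Pr F)) : idl s ≠ ⊥ := by
  have : idl s ≠ 0 := Finset.prod_ne_zero_iff.2 fun v _ => v.ne_bot
  exact this

lemma absNorm_idl (s : Finset (Pr F)) : Ideal.absNorm (idl s) = nrm s := by
  rw [idl, map_prod]
  rfl

lemma mem_le {X : ℝ} {s : Finset (Pr F)} (h : (nrm s : ℝ) ≤ X) : idl s ∈ idealsLE F X :=
  ⟨idl_ne s, by rw [absNorm_idl]; exact h⟩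

theorem fcn (h : CntS) : FcnS := by
  intro F _ _
  obtain ⟨h1, ⟨C, hC, h2⟩, _⟩ := h F
  refine ⟨fun X => ?_, C, hC, fun X hX => ?_⟩
  · exact Set.Finite.of_injOn (f := idl) (t := idealsLE F X) (fun s hs => mem_le hs)
      (idl_injective.injOn) (h1 X)
  · refine le_trans ?_ (h2 X hX)
    exact_mod_cast Set.ncard_le_ncard_of_injOn idl (fun s hs => mem_le hs)
      (idl_injective.injOn) (h1 X)

end Pool.Agent.Lib.MP_50bb2e_nt.MT.H22
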